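import Pool.Agent.C1G.Col

/-!
# Blocks with one relation of a level which no sign vector undercuts
-/

namespace C1N

open Finset Module C1E

/-- If every point of the central section of the cube is half a difference of points of the
section at level `-ε`, then no sign vector has a value strictly between `-|ε|` and `|ε|`. -/
theorem ns {m : ℕ} (x : Fin m → ℝ) (ε : ℝ)
    (h : ∀ v : Fin m → ℝ, (∀ a, |v a| ≤ 1) → ∑ a, x a * v a = 0 →
      ∃ p q : Fin m → ℝ, (∀ a, |p a| ≤ 1) ∧ (∀ a, |q a| ≤ 1) ∧ ∑ a, x a * p a = - ε ∧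
        ∑ a, x a * q a = - ε ∧ ∀ a, p a - q a = 2 * v a) (s : Fin m → Bool) :
    |ε| ≤ |C1E.val x s| := by
  classical
  by_contra hcon
  push Not at hcon
  set S : Finset (Fin m → Bool) := univ.filter fun s => 0 ≤ C1E.val x s ∧ C1E.val x s < |ε| with hS
  have hne : S.Nonempty := by
    rcases le_total 0 (C1E.val x s) with h0 | h0
    · exact ⟨s, by rw [hS, mem_filter]; exact ⟨mem_univ _, h0, by rwa [abs_of_nonneg h0] at hcon⟩⟩
    · refine ⟨ng s, ?_⟩
      rw [hS, mem_filter, val_ng]
      exact ⟨mem_univ _, by linarith, by rwa [abs_of_nonpos h0] at hcon⟩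
  obtain ⟨s, hs, hmin⟩ := S.exists_min_image (C1E.val x) hne
  obtain ⟨-, h0, h1⟩ := mem_filter.1 hs
  have hpq : ∀ (b : Bool) (p q : ℝ), |p| ≤ 1 → |q| ≤ 1 → p - q = 2 * sg b → p = sg b ∧ q = - sg b := by
    intro b p q hp hq he
    rw [abs_le] at hp hq
    cases b
    · rw [sg_false] at *
      constructor <;> linarith
    · rw [sg_true] at *
      constructor <;> linarith
  rcases h0.lt_or_eq with hpos | hzero
  · -- an edge
    have hex : ∃ a, 0 < x a * sg (s a) := by
      by_contra hno
      push Not at hno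
      have : C1E.val x s ≤ 0 := Finset.sum_nonpos fun a _ => hno a
      linarith
    obtain ⟨a, ha⟩ := hex
    have hflp := val_flp x s a
    have hneg : C1E.val x (flp s a) < 0 := by
      by_contra hge
      push Not at hge
      have := hmin (flp s a) (by
        rw [hS, mem_filter]
        exact ⟨mem_univ _, hge, by linarith⟩)
      linarith
    set ρ := x a * sg (s a) with hρ
    set W := C1E.val x s with hW
    have hxa : |x a| = ρ := by
      have e : |ρ| = |x a| := by rw [hρ, abs_mul, abs_sg, mul_one]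
      rw [← e, abs_of_pos ha]
    -- sums over the other coordinates
    have hsum : ∀ y : Fin m → ℝ, ∑ b, x b * y b = x a * y a + ∑ b ∈ univ.erase a, x b * y b :=
      fun y => (Finset.add_sum_erase _ _ (mem_univ a)).symm
    have hR : ∑ b ∈ univ.erase a, x b * sg (s b) = W - ρ := by
      have := hsum fun b => sg (s b)
      rw [hW, C1E.val, this]; ring
    obtain ⟨p, q, hp, hq, hpx, hqx, hd⟩ := h (Function.update (fun b => sg (s b)) a
        (sg (s a) * (1 - W / ρ))) (by
      intro b
      by_cases hb : b = a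
      · subst hb
        rw [Function.update_self, abs_mul, abs_sg, one_mul, abs_le]
        have h3 : W / ρ < 2 := by rw [div_lt_iff₀ ha]; linarith
        have h4 : 0 < W / ρ := div_pos hpos ha
        constructor <;> linarith
      · rw [Function.update_of_ne hb, abs_sg]) (by
      rw [hsum, Function.update_self]
      have : ∑ b ∈ univ.erase a, x b * Function.update (fun b => sg (s b)) a
          (sg (s a) * (1 - W / ρ)) b = W - ρ := by
        rw [← hR]
        refine Finset.sum_congr rfl fun b hb => ?_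
        rw [Function.update_of_ne (Finset.ne_of_mem_erase hb)]
      rw [this]
      have e : x a * (sg (s a) * (1 - W / ρ)) = ρ * (1 - W / ρ) := by rw [hρ]; ring
      rw [e]
      field_simp
      ring)
    have hpo : ∀ b, b ≠ a → p b = sg (s b) ∧ q b = - sg (s b) := by
      intro b hb
      have := hd b
      rw [Function.update_of_ne hb] at this
      exact hpq (s b) (p b) (q b) (hp b) (hq b) this
    have e1 : - ε = x a * p a + (W - ρ) := by
      rw [← hpx, hsum, ← hR]
      congr 1
      exact Finset.sum_congr rfl fun b hb => by rw [(hpo b (Finset.ne_of_mem_erase hb)).1]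
    have e2 : - ε = x a * q a - (W - ρ) := by
      rw [← hqx, hsum, ← hR, sub_eq_add_neg, ← Finset.sum_neg_distrib]
      congr 1
      exact Finset.sum_congr rfl fun b hb => by
        rw [(hpo b (Finset.ne_of_mem_erase hb)).2]; ring
    have hb1 : |x a * p a| ≤ ρ := by
      rw [abs_mul, hxa]
      nlinarith [hp a]
    have hb2 : |x a * q a| ≤ ρ := by
      rw [abs_mul, hxa]
      nlinarith [hq a]
    rw [abs_le] at hb1 hb2
    have : |ε| ≤ W := by
      rw [abs_le]
      constructor <;> linarith [hb1.1, hb1.2, hb2.1, hb2.2]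
    linarith
  · -- a vertex
    obtain ⟨p, q, hp, hq, hpx, hqx, hd⟩ := h (fun b => sg (s b)) (fun b => (abs_sg _).le)
      (by rw [hzero]; rfl)
    have e1 : - ε = C1E.val x s := by
      rw [← hpx, C1E.val]
      exact Finset.sum_congr rfl fun b _ => by
        rw [(hpq (s b) (p b) (q b) (hp b) (hq b) (hd b)).1]
    have : |ε| = 0 := by
      rw [abs_eq_zero]
      linarith
    linarith

/-- a set of sign vectors without antipodes -/
theorem card_half {k : ℕ} (S : Finset (Fin (k + 1) → Bool)) (h : ∀ s ∈ S, ng s ∉ S) :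
    S.card ≤ 2 ^ k := by
  classical
  have hinj : Function.Injective (ng : (Fin (k + 1) → Bool) → Fin (k + 1) → Bool) := fun s t hst => by
    rw [← ng_ng s, hst, ng_ng]
  have h1 : Disjoint S (S.image ng) := by
    rw [Finset.disjoint_left]
    intro s hs hs'
    obtain ⟨t, ht, rfl⟩ := Finset.mem_image.1 hs'
    exact h t ht hs
  have h2 : (S ∪ S.image ng).card ≤ 2 ^ (k + 1) := by
    have := Finset.card_le_univ (S ∪ S.image ng)
    simpa using this
  rw [Finset.card_union_of_disjoint h1, Finset.card_image_of_injective _ hinj, pow_succ] at h2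
  omega

/-- colours from a set of sign vectors without antipodes -/
theorem col_of_half {ι : Type} {k : ℕ} (u : ι → Fin (k + 1) → ℝ)
    (P : (Fin (k + 1) → Bool) → Prop) (hP : ∀ s, P s → ¬ P (ng s))
    (hex : ∀ i, ∃ s, P s ∧ InFace (u i) s) :
    ∃ col : ι → Fin (2 ^ k), ∀ i l a, u i a = 1 → u l a = -1 → col i ≠ col l := by
  classical
  obtain ⟨S, hS⟩ := C1G.list_set (univ.filter P) (card_half (univ.filter P) fun s hs hs' =>
    hP s (mem_filter.1 hs).2 (mem_filter.1 hs').2)
  have hex' : ∀ i, ∃ j, InFace (u i) (S j) := by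
    intro i
    obtain ⟨s, hs, hs'⟩ := hex i
    obtain ⟨j, hj⟩ := hS s (by simp [hs])
    exact ⟨j, by rw [hj]; exact hs'⟩
  choose col hcol using hex'
  refine ⟨col, fun i l a h1 h2 heq => ?_⟩
  have h3 := hcol l
  rw [← heq] at h3
  exact C1G.not_opp (hcol i) h3 h1 h2

/-- rounding down -/
theorem round_le {m : ℕ} (x u : Fin m → ℝ) (hu : ∀ a, |u a| ≤ 1) :
    ∃ s, InFace u s ∧ C1E.val x s ≤ ∑ a, x a * u a := by
  classical
  refine ⟨fun a => if u a = 1 then true else if u a = -1 then false else decide (x a < 0),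
    fun a => ⟨fun h => by simp [h], fun h => ?_⟩, Finset.sum_le_sum fun a _ => ?_⟩
  · have : ¬ u a = 1 := by rw [h]; norm_num
    simp [h]
    norm_num
  · have h1 := abs_le.1 (hu a)
    by_cases e : u a = 1
    · simp [e, sg]
    · by_cases e' : u a = -1
      · have : ¬ (-1 : ℝ) = 1 := by norm_num
        simp [e', sg, this]
      · by_cases hx : x a < 0
        · simp only [e, e', hx, if_false, decide_true, sg, if_true]
          nlinarith [h1.1, h1.2]
        · simp only [e, e', hx, if_false, decide_false, sg, Bool.false_eq_true]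
          push Not at hx
          nlinarith [h1.1, h1.2]

/-- rounding up -/
theorem round_ge {m : ℕ} (x u : Fin m → ℝ) (hu : ∀ a, |u a| ≤ 1) :
    ∃ s, InFace u s ∧ ∑ a, x a * u a ≤ C1E.val x s := by
  obtain ⟨s, h1, h2⟩ := round_le (fun a => - x a) u hu
  refine ⟨s, h1, ?_⟩
  simp only [C1E.val, neg_mul, Finset.sum_neg_distrib] at h2 ⊢
  linarith

/-- Colouring of a block with one relation. -/
theorem block_eps {ι : Type} [Fintype ι] {k : ℕ} (c : ι → ℝ) (hc : ∀ i, 0 < c i)
    (g : ι → Fin (k + 1) → ℝ) (x : Fin (k + 1) → ℝ) (hx : ∃ a, x a ≠ 0) (ε : ℝ)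
    (hg : ∀ i, ∑ a, x a * g i a = c i * ε) (hns : ∀ s, |ε| ≤ |C1E.val x s|)
    (hint : ∀ i l a, |g i a - g l a| ≤ c i + c l) :
    ∃ col : ι → Fin (2 ^ k), ∀ i l a, g i a - g l a = c i + c l → col i ≠ col l := by
  classical
  rcases isEmpty_or_nonempty ι with hι | hι
  · exact ⟨fun i => (hι.false i).elim, fun i => (hι.false i).elim⟩
  by_cases hε : ε = 0
  · obtain ⟨col, hcol⟩ := Planar.block c hc g x hx (fun i => by rw [hg, hε, mul_zero]) hint
    have hcard : Fintype.card (Fin k → Bool) = 2 ^ k := by simp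
    exact ⟨fun i => Fintype.equivFinOfCardEq hcard (col i), fun i l a h heq =>
      hcol i l a h ((Fintype.equivFinOfCardEq hcard).injective heq)⟩
  have hex : ∀ a, ∃ t : ℝ, ∀ i, g i a - c i ≤ t ∧ t ≤ g i a + c i := fun a =>
    C1E.exists_common c (fun i => g i a) fun i l => hint i l a
  choose t ht using hex
  set u : ι → Fin (k + 1) → ℝ := fun i a => (g i a - t a) / c i with hu
  have hu1 : ∀ i a, |u i a| ≤ 1 := by
    intro i a
    have h1 := ht a i
    rw [hu, abs_div, abs_of_pos (hc i), div_le_one (hc i), abs_le]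
    constructor <;> linarith [h1.1, h1.2]
  have hsep : ∀ i l a, g i a - g l a = c i + c l → u i a = 1 ∧ u l a = -1 := by
    intro i l a h
    have h1 := (ht a i).1
    have h2 := (ht a l).2
    have h3 : g i a - t a = c i := by linarith
    have h4 : g l a - t a = - c l := by linarith
    simp only [hu, h3, h4]
    exact ⟨div_self (hc i).ne', by rw [neg_div, div_self (hc l).ne']⟩
  set X := ∑ a, x a * t a with hX
  have hsum : ∀ i, ∑ a, x a * u i a = ε - X / c i := by
    intro i
    have h1 : ∀ a, x a * u i a = (x a * g i a - x a * t a) / c i := fun a => by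
      rw [hu]; ring
    simp only [h1]
    rw [← Finset.sum_div, Finset.sum_sub_distrib, hg i, ← hX, sub_div,
      mul_div_cancel_left₀ _ (hc i).ne']
  suffices hcol : ∃ col : ι → Fin (2 ^ k), ∀ i l a, u i a = 1 → u l a = -1 → col i ≠ col l by
    obtain ⟨col, hcol⟩ := hcol
    exact ⟨col, fun i l a h => hcol i l a (hsep i l a h).1 (hsep i l a h).2⟩
  rcases lt_trichotomy 0 X with hX0 | hX0 | hX0
  · -- all values are below `ε`
    refine col_of_half u (fun s => C1E.val x s < ε) (fun s h1 h2 => ?_) fun i => ?_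
    · rw [val_ng] at h2
      have h3 := hns s
      have h4 : |C1E.val x s| < ε := by rw [abs_lt]; constructor <;> linarith
      have h5 := le_abs_self ε
      linarith
    · obtain ⟨s, h1, h2⟩ := round_le x (u i) (hu1 i)
      have h3 := div_pos hX0 (hc i)
      have h4 := hsum i
      exact ⟨s, by linarith, h1⟩
  · -- all values are equal to `ε`
    have h4 : ∀ i, ∑ a, x a * u i a = ε := fun i => by rw [hsum, ← hX0]; simp
    rcases lt_or_gt_of_ne hε with h0 | h0
    · refine col_of_half u (fun s => C1E.val x s ≤ ε) (fun s h1 h2 => ?_) fun i => ?_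
      · rw [val_ng] at h2
        linarith
      · obtain ⟨s, h1, h2⟩ := round_le x (u i) (hu1 i)
        exact ⟨s, by linarith [h4 i], h1⟩
    · refine col_of_half u (fun s => ε ≤ C1E.val x s) (fun s h1 h2 => ?_) fun i => ?_
      · rw [val_ng] at h2
        linarith
      · obtain ⟨s, h1, h2⟩ := round_ge x (u i) (hu1 i)
        exact ⟨s, by linarith [h4 i], h1⟩
  · -- all values are above `ε`
    refine col_of_half u (fun s => ε < C1E.val x s) (fun s h1 h2 => ?_) fun i => ?_
    · rw [val_ng] at h2
      have h3 := hns s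
      have h4 : |C1E.val x s| < - ε := by rw [abs_lt]; constructor <;> linarith
      have h5 := neg_abs_le ε
      linarith
    · obtain ⟨s, h1, h2⟩ := round_ge x (u i) (hu1 i)
      have h3 := div_neg_of_neg_of_pos hX0 (hc i)
      have h4 := hsum i
      exact ⟨s, by linarith, h1⟩

/-! ### The choice of a point -/

/-- A point near `-q / D` in the section of the cube, for nonnegative coefficients. -/
theorem sel_low {m : ℕ} (x q : Fin m → ℝ) (ε c D : ℝ) (hD : 0 < D)
    (hx : ∀ a, 0 ≤ x a) (hns : ∀ s, |ε| ≤ |C1E.val x s|) (hε : |ε| < ∑ a, x a) (hc : 0 < c)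
    (hq : ∑ a, x a * q a = D * ε) (hq1 : ∀ a, |q a| < 2 * c + D) :
    ∑ a, x a * max (-1) ((- q a - 2 * c) / D) < - ε := by
  classical
  by_contra hcon
  push Not at hcon
  set s : Fin m → Bool := fun a => decide (D - 2 * c ≤ q a) with hs
  have hT : ∀ a, D - 2 * c ≤ q a → D * max (-1) ((- q a - 2 * c) / D) = - D := by
    intro a ha
    rw [max_eq_left, mul_neg, mul_one]
    rw [div_le_iff₀ hD]; linarith
  have hT' : ∀ a, ¬ D - 2 * c ≤ q a → D * max (-1) ((- q a - 2 * c) / D) = - q a - 2 * c := by
    intro a ha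
    push Not at ha
    rw [max_eq_right, mul_div_cancel₀ _ hD.ne']
    rw [le_div_iff₀ hD]; linarith
  have h1 : D * ∑ a, x a * max (-1) ((- q a - 2 * c) / D) + ∑ a, x a * q a ≤
      2 * c * C1E.val x s := by
    rw [Finset.mul_sum, ← Finset.sum_add_distrib, C1E.val, Finset.mul_sum]
    refine Finset.sum_le_sum fun a _ => ?_
    have hqa := abs_lt.1 (hq1 a)
    have e : D * (x a * max (-1) ((- q a - 2 * c) / D)) + x a * q a =
        x a * (D * max (-1) ((- q a - 2 * c) / D) + q a) := by ring
    have e' : 2 * c * (x a * sg (s a)) = x a * (2 * c * sg (s a)) := by ring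
    rw [e, e']
    refine mul_le_mul_of_nonneg_left ?_ (hx a)
    by_cases ha : D - 2 * c ≤ q a
    · rw [hT a ha]
      simp only [hs, ha, decide_true, sg_true]
      linarith [hqa.2]
    · rw [hT' a ha]
      simp only [hs, ha, decide_false, sg_false]
      linarith
  have h2 : ∀ a, D * max (-1) ((- q a - 2 * c) / D) ≤ - D * sg (s a) := by
    intro a
    have hqa := abs_lt.1 (hq1 a)
    by_cases ha : D - 2 * c ≤ q a
    · rw [hT a ha]
      simp only [hs, ha, decide_true, sg_true]
      linarith
    · rw [hT' a ha]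
      simp only [hs, ha, decide_false, sg_false]
      linarith [hqa.1]
  have h3 : D * ∑ a, x a * max (-1) ((- q a - 2 * c) / D) ≤ - D * C1E.val x s := by
    rw [Finset.mul_sum, C1E.val, Finset.mul_sum]
    refine Finset.sum_le_sum fun a _ => ?_
    have := mul_le_mul_of_nonneg_left (h2 a) (hx a)
    linarith
  have h0 : 0 ≤ C1E.val x s := by
    by_contra hneg
    push Not at hneg
    rw [hq] at h1
    nlinarith
  by_cases hex : ∃ a, ¬ D - 2 * c ≤ q a ∧ 0 < x a
  · obtain ⟨a, ha, hxa⟩ := hex
    have h4 : D * ∑ a, x a * max (-1) ((- q a - 2 * c) / D) < - D * C1E.val x s := by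
      rw [Finset.mul_sum, C1E.val, Finset.mul_sum]
      refine Finset.sum_lt_sum (fun a _ => ?_) ⟨a, mem_univ a, ?_⟩
      · have := mul_le_mul_of_nonneg_left (h2 a) (hx a)
        linarith
      · have hqa := abs_lt.1 (hq1 a)
        have h5 : D * max (-1) ((- q a - 2 * c) / D) < - D * sg (s a) := by
          rw [hT' a ha]
          simp only [hs, ha, decide_false, sg_false]
          linarith [hqa.1]
        have := mul_lt_mul_of_pos_left h5 hxa
        linarith
    have h5 : C1E.val x s < ε := by nlinarith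
    have h6 := hns s
    rw [abs_of_nonneg h0, abs_of_nonneg (h0.trans h5.le)] at h6
    linarith
  · push Not at hex
    have h4 : C1E.val x s = ∑ a, x a := by
      rw [C1E.val]
      refine Finset.sum_congr rfl fun a _ => ?_
      by_cases ha : D - 2 * c ≤ q a
      · simp only [hs, ha, decide_true, sg_true, mul_one]
      · have h5 := hex a (lt_of_not_ge ha)
        have h6 : x a = 0 := le_antisymm h5 (hx a)
        rw [h6]; ring
    have h5 : C1E.val x s ≤ ε := by nlinarith
    have h6 := le_abs_self ε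
    linarith

theorem sel_pos {m : ℕ} (x q : Fin m → ℝ) (ε c D : ℝ) (hD : 0 < D)
    (hx : ∀ a, 0 ≤ x a) (hns : ∀ s, |ε| ≤ |C1E.val x s|) (hε : |ε| < ∑ a, x a) (hc : 0 < c)
    (hq : ∑ a, x a * q a = D * ε) (hq1 : ∀ a, |q a| < 2 * c + D) :
    ∃ z : Fin m → ℝ, (∀ a, |z a| ≤ 1) ∧ ∑ a, x a * z a = - ε ∧ ∀ a, |q a + D * z a| < 2 * c := by
  classical
  set lo : Fin m → ℝ := fun a => max (-1) ((- q a - 2 * c) / D) with hlo
  set up : Fin m → ℝ := fun a => - max (-1) ((- (- q a) - 2 * c) / D) with hup
  set A := ∑ a, x a * lo a with hA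
  set B := ∑ a, x a * up a with hB
  have h1 : A < - ε := sel_low x q ε c D hD hx hns hε hc hq hq1
  have h2 : - ε < B := by
    have := sel_low x (fun a => - q a) (- ε) c D hD hx (by rwa [abs_neg]) (by rwa [abs_neg]) hc
      (by simp only [mul_neg, Finset.sum_neg_distrib, hq]) (fun a => by rw [abs_neg]; exact hq1 a)
    have e : B = - ∑ a, x a * max (-1) ((- (- q a) - 2 * c) / D) := by
      rw [hB, ← Finset.sum_neg_distrib]
      exact Finset.sum_congr rfl fun a _ => by rw [hup]; ring
    rw [e]
    linarith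
  have hlo1 : ∀ a, -1 ≤ lo a ∧ lo a ≤ 1 ∧ -(2 * c) ≤ q a + D * lo a ∧ q a + D * lo a < 2 * c := by
    intro a
    have hqa := abs_lt.1 (hq1 a)
    have e1 : (- q a - 2 * c) / D ≤ 1 := by rw [div_le_iff₀ hD]; linarith [hqa.1]
    have e2 : (- q a - 2 * c) / D ≤ lo a := le_max_right _ _
    have e3 := (div_le_iff₀ hD).1 e2
    refine ⟨le_max_left _ _, max_le (by norm_num) e1, by linarith, ?_⟩
    rcases max_choice (-1) ((- q a - 2 * c) / D) with h | h
    · simp only [hlo, h]; linarith [hqa.2]
    · simp only [hlo, h]; rw [mul_div_cancel₀ _ hD.ne']; linarith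
  have hup1 : ∀ a, -1 ≤ up a ∧ up a ≤ 1 ∧ -(2 * c) < q a + D * up a ∧ q a + D * up a ≤ 2 * c := by
    intro a
    have hqa := abs_lt.1 (hq1 a)
    have e1 : (- (- q a) - 2 * c) / D ≤ 1 := by rw [div_le_iff₀ hD]; linarith [hqa.2]
    have e2 : (- (- q a) - 2 * c) / D ≤ max (-1) ((- (- q a) - 2 * c) / D) := le_max_right _ _
    have e3 := (div_le_iff₀ hD).1 e2
    have e4 : max (-1) ((- (- q a) - 2 * c) / D) ≤ 1 := max_le (by norm_num) e1
    have e5 : -1 ≤ max (-1) ((- (- q a) - 2 * c) / D) := le_max_left _ _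
    refine ⟨by simp only [hup]; linarith, by simp only [hup]; linarith, ?_, by
      simp only [hup]; linarith⟩
    rcases max_choice (-1) ((- (- q a) - 2 * c) / D) with h | h
    · simp only [hup, h]; linarith [hqa.1]
    · simp only [hup, h]; rw [mul_neg, mul_div_cancel₀ _ hD.ne']; linarith
  have hBA : 0 < B - A := by linarith
  set l := (- ε - A) / (B - A) with hl
  have hl0 : 0 < l := div_pos (by linarith) hBA
  have hl1 : l < 1 := by rw [hl, div_lt_one hBA]; linarith
  refine ⟨fun a => (1 - l) * lo a + l * up a, fun a => ?_, ?_, fun a => ?_⟩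
  · obtain ⟨a1, a2, -, -⟩ := hlo1 a
    obtain ⟨b1, b2, -, -⟩ := hup1 a
    rw [abs_le]
    constructor <;> nlinarith
  · have e : ∀ a, x a * ((1 - l) * lo a + l * up a) = (1 - l) * (x a * lo a) + l * (x a * up a) :=
      fun a => by ring
    simp only [e]
    rw [Finset.sum_add_distrib, ← Finset.mul_sum, ← Finset.mul_sum, ← hA, ← hB]
    have : l * (B - A) = - ε - A := by rw [hl, div_mul_cancel₀ _ hBA.ne']
    linarith
  · obtain ⟨-, -, a3, a4⟩ := hlo1 a
    obtain ⟨-, -, b3, b4⟩ := hup1 a
    have e : q a + D * ((1 - l) * lo a + l * up a) =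
      (1 - l) * (q a + D * lo a) + l * (q a + D * up a) := by ring
    rw [e, abs_lt]
    constructor <;> nlinarith

/-- A point near `-q / D` in the section of the cube. -/
theorem sel {m : ℕ} (x q : Fin m → ℝ) (ε c D : ℝ) (hD : 0 < D) (hns : ∀ s, |ε| ≤ |C1E.val x s|)
    (hε : |ε| < ∑ a, |x a|) (hc : 0 < c)
    (hq : ∑ a, x a * q a = D * ε) (hq1 : ∀ a, |q a| < 2 * c + D) :
    ∃ z : Fin m → ℝ, (∀ a, |z a| ≤ 1) ∧ ∑ a, x a * z a = - ε ∧ ∀ a, |q a + D * z a| < 2 * c := by
  classical
  set b : Fin m → Bool := fun a => decide (0 ≤ x a) with hb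
  have hxb : ∀ a, |x a| = x a * sg (b a) := by
    intro a
    by_cases h : 0 ≤ x a
    · simp only [hb, h, decide_true, sg_true, mul_one, abs_of_nonneg]
    · simp only [hb, h, decide_false, sg_false]
      rw [abs_of_neg (lt_of_not_ge h)]; ring
  have hsq : ∀ t : Bool, sg t * sg t = 1 := by intro t; cases t <;> simp [sg]
  obtain ⟨z, h1, h2, h3⟩ := sel_pos (fun a => |x a|) (fun a => sg (b a) * q a) ε c D hD
    (fun a => abs_nonneg _) (fun s => by
      have e : C1E.val (fun a => |x a|) s = C1E.val x fun a => (s a == b a) := by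
        rw [C1E.val, C1E.val]
        refine Finset.sum_congr rfl fun a _ => ?_
        rw [hxb]
        rcases s a with _ | _ <;> rcases b a with _ | _ <;> simp [sg]
      rw [e]
      exact hns _) hε hc (by
      rw [← hq]
      refine Finset.sum_congr rfl fun a _ => ?_
      rw [hxb]
      linear_combination (x a * q a) * hsq (b a)) (fun a => by
      rw [abs_mul, abs_sg, one_mul]; exact hq1 a)
  refine ⟨fun a => sg (b a) * z a, fun a => by rw [abs_mul, abs_sg, one_mul]; exact h1 a, ?_,
    fun a => ?_⟩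
  · rw [← h2]
    refine Finset.sum_congr rfl fun a _ => ?_
    rw [hxb]; ring
  · have := h3 a
    have e : sg (b a) * q a + D * z a = sg (b a) * (q a + D * (sg (b a) * z a)) := by
      linear_combination (- D * z a) * hsq (b a)
    rw [e, abs_mul, abs_sg, one_mul] at this
    exact this

end C1N
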