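import Pool.Agent.C1N.Blk
import Pool.Agent.C1G.Pc

/-!
# Bodies whose difference body is cut out by one slab more than the dimension
-/

namespace C1N

open Finset Module C1E

section

variable {V : Type} [NormedAddCommGroup V] [NormedSpace ℝ V] {K : Set V}

theorem mem_int_hom {c : ℝ} (hc : 0 < c) (x : V) {y : V} (hy : y ∈ interior K) :
    x + c • y ∈ interior ((fun y => x + c • y) '' K) := by
  have h : IsOpenMap fun y : V => x + c • y :=
    (isOpenMap_add_left x).comp (isOpenMap_smul₀ hc.ne')
  exact h.image_interior_subset K ⟨y, hy, rfl⟩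

/-- A point which shows that the interiors of two homothets meet. -/
theorem int_meet (hK : Convex ℝ K) (hKi : (interior K).Nonempty) {m : ℕ} (f : Fin m → V →L[ℝ] ℝ)
    (hf : ∀ y, (∀ a, |f a y| ≤ 2) → ∃ p ∈ K, ∃ q ∈ K, p - q = y) {c D : ℝ} (hc : 0 < c)
    (hD : 0 ≤ D) (x x' z : V) (hz : z ∈ K) (hz2 : ∀ a, |f a (x' - x) + D * f a z| < 2 * c) :
    (interior ((fun y => x + c • y) '' K) ∩
      interior ((fun y => x' + (c + D) • y) '' K)).Nonempty := by
  set y : V := c⁻¹ • (x' - x + D • z) with hy
  have hfy : ∀ a, |f a y| < 2 := by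
    intro a
    have e : f a y = c⁻¹ * (f a (x' - x) + D * f a z) := by
      rw [hy, map_smul, map_add, map_smul, smul_eq_mul, smul_eq_mul]
    rw [e, abs_mul, abs_of_pos (inv_pos.2 hc), inv_mul_lt_iff₀ hc, mul_comm c 2]
    exact hz2 a
  have hev : ∀ᶠ r : ℝ in nhdsWithin 1 (Set.Iio 1), ∀ a, |f a y| / 2 < r :=
    Filter.eventually_all.2 fun a =>
      (lt_mem_nhds (by linarith [hfy a] : |f a y| / 2 < 1)).filter_mono nhdsWithin_le_nhds
  have hev0 : ∀ᶠ r : ℝ in nhdsWithin 1 (Set.Iio 1), 0 < r :=
    (lt_mem_nhds one_pos).filter_mono nhdsWithin_le_nhds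
  obtain ⟨r, ⟨hr, hr0⟩, hr1⟩ := ((hev.and hev0).and self_mem_nhdsWithin).exists
  have hr1' : r < 1 := hr1
  obtain ⟨p, hp, q, hq, hpq⟩ := hf (r⁻¹ • y) (fun a => by
    rw [map_smul, smul_eq_mul, abs_mul, abs_of_pos (inv_pos.2 hr0), inv_mul_le_iff₀ hr0]
    linarith [hr a])
  obtain ⟨k0, hk0⟩ := hKi
  have hp1 : r • p + (1 - r) • k0 ∈ interior K :=
    hK.combo_self_interior_mem_interior hp hk0 hr0.le (by linarith) (by ring)
  have hq1 : r • q + (1 - r) • k0 ∈ interior K :=
    hK.combo_self_interior_mem_interior hq hk0 hr0.le (by linarith) (by ring)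
  have hcD : 0 < c + D := by linarith
  have hw : (D / (c + D)) • z + (c / (c + D)) • (r • q + (1 - r) • k0) ∈ interior K :=
    hK.combo_self_interior_mem_interior hz hq1 (by positivity) (by positivity)
      (by field_simp; ring)
  refine ⟨x + c • (r • p + (1 - r) • k0), mem_int_hom hc x hp1, ?_⟩
  have e : x + c • (r • p + (1 - r) • k0) =
      x' + (c + D) • ((D / (c + D)) • z + (c / (c + D)) • (r • q + (1 - r) • k0)) := by
    have e1 : (c + D) • ((D / (c + D)) • z + (c / (c + D)) • (r • q + (1 - r) • k0)) =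
        D • z + c • (r • q + (1 - r) • k0) := by
      rw [smul_add, smul_smul, smul_smul, mul_div_cancel₀ _ hcD.ne', mul_div_cancel₀ _ hcD.ne']
    have e2 : c • y = x' - x + D • z := by
      rw [hy, smul_smul, mul_inv_cancel₀ hc.ne', one_smul]
    have e3 : y = r • p - r • q := by
      rw [← smul_sub, hpq, smul_smul, mul_inv_cancel₀ hr0.ne', one_smul]
    have e4 : p = q + r⁻¹ • y := by rw [← hpq]; abel
    rw [e1]
    have e5 : x + c • (r • p + (1 - r) • k0) - (D • z + c • (r • q + (1 - r) • k0)) - x' =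
        c • (r • p - r • q) - (x' - x + D • z) := by
      simp only [smul_add, smul_sub]
      abel
    have e6 : c • (r • p - r • q) - (x' - x + D • z) = 0 := by
      rw [← e3, e2, sub_self]
    rw [e6] at e5
    have e7 := sub_eq_zero.1 e5
    rw [sub_eq_iff_eq_add] at e7
    exact e7
  rw [e]
  exact mem_int_hom hcD x' hw

end

/-- The facts about a normalised difference body. -/
theorem colB_norm {d : ℕ} {K : Set (EuclideanSpace ℝ (Fin d))} (hK : Convex ℝ K)
    (hKc : IsCompact K) (hKi : (interior K).Nonempty)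
    (v : Fin (d + 1) → EuclideanSpace ℝ (Fin d)) (e : Fin (d + 1) → ℝ)
    (he : ∀ a, v a = 0 → e a = 0)
    (h1 : ∀ z, z ∈ K ↔ ∀ a, |inner ℝ (v a) z - e a| ≤ 1)
    (h2 : ∀ y, (∀ a, |inner ℝ (v a) y| ≤ 2) → ∃ p ∈ K, ∃ q ∈ K, p - q = y) :
    C1G.ColB K (2 ^ d) := by
  classical
  obtain ⟨z0, hz0⟩ := hKi
  -- interior points
  have hz0' : ∀ a, |inner ℝ (v a) z0 - e a| < 1 := by
    intro a
    by_cases hva : v a = 0
    · rw [hva, he a hva, inner_zero_left]; simp
    · obtain ⟨r, hr, hball⟩ := Metric.mem_nhds_iff.1 (mem_interior_iff_mem_nhds.1 hz0)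
      have hn : 0 < ‖v a‖ := norm_pos_iff.2 hva
      set t : ℝ := r / (2 * ‖v a‖) with ht
      have ht0 : 0 < t := by positivity
      have hmem : ∀ s : ℝ, |s| = 1 → z0 + (s * t) • v a ∈ K := by
        intro s hs
        refine hball ?_
        rw [Metric.mem_ball, dist_eq_norm, add_sub_cancel_left, norm_smul, Real.norm_eq_abs,
          abs_mul, hs, one_mul, abs_of_pos ht0, ht]
        have : r / (2 * ‖v a‖) * ‖v a‖ = r / 2 := by field_simp
        rw [this]; linarith
      have hin : ∀ s : ℝ, inner ℝ (v a) (z0 + (s * t) • v a) =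
          inner ℝ (v a) z0 + s * (t * (‖v a‖ * ‖v a‖)) := by
        intro s
        rw [inner_add_right, real_inner_smul_right, real_inner_self_eq_norm_mul_norm]; ring
      have hpos : 0 < t * (‖v a‖ * ‖v a‖) := by positivity
      have a1 := abs_le.1 ((h1 _).1 (hmem 1 (by norm_num)) a)
      have a2 := abs_le.1 ((h1 _).1 (hmem (-1) (by norm_num)) a)
      rw [hin] at a1 a2
      rw [abs_lt]
      constructor <;> linarith [a1.2, a2.1]
  -- the relation
  have hdep : ¬ LinearIndependent ℝ v := by
    intro h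
    have h3 := h.fintype_card_le_finrank
    rw [Fintype.card_fin, finrank_euclideanSpace_fin] at h3
    omega
  obtain ⟨x, hx0, a0, ha0⟩ := Fintype.not_linearIndependent_iff.mp hdep
  have hrel : ∀ y, ∑ a, x a * inner ℝ (v a) y = 0 := by
    intro y
    have : ∑ a, x a * inner ℝ (v a) y = inner ℝ (∑ a, x a • v a) y := by
      rw [sum_inner]
      exact Finset.sum_congr rfl fun a _ => by rw [real_inner_smul_left]
    rw [this, hx0, inner_zero_left]
  set ε := ∑ a, x a * e a with hε
  -- injectivity
  set F : EuclideanSpace ℝ (Fin d) →ₗ[ℝ] (Fin (d + 1) → ℝ) :=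
    LinearMap.pi fun a => (innerSL ℝ (v a)).toLinearMap with hF
  have hFa : ∀ y a, F y a = inner ℝ (v a) y := fun y a => rfl
  have hinj : Function.Injective F := by
    rw [← LinearMap.ker_eq_bot, LinearMap.ker_eq_bot']
    intro y hy
    have hy' : ∀ a, inner ℝ (v a) y = (0 : ℝ) := fun a => congrFun hy a
    obtain ⟨R, hR⟩ := hKc.isBounded.exists_norm_le
    by_contra hne
    have hn : 0 < ‖y‖ := norm_pos_iff.2 hne
    have hR0 : 0 ≤ R := (norm_nonneg _).trans (hR z0 (interior_subset hz0))
    obtain ⟨p, hp, q, hq, hpq⟩ := h2 (((2 * R + 1) / ‖y‖) • y) (fun a => by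
      rw [real_inner_smul_right, hy' a, mul_zero, abs_zero]; norm_num)
    have h3 : ‖p - q‖ = 2 * R + 1 := by
      rw [hpq, norm_smul, Real.norm_eq_abs, abs_of_nonneg (by positivity),
        div_mul_cancel₀ _ hn.ne']
    have h4 := norm_sub_le p q
    linarith [hR p hp, hR q hq]
  -- the range
  have hrange : ∀ w : Fin (d + 1) → ℝ, ∑ a, x a * w a = 0 → ∃ y, F y = w := by
    intro w hw
    set L : (Fin (d + 1) → ℝ) →ₗ[ℝ] ℝ := ∑ a, x a • LinearMap.proj a with hL
    have hLw : ∀ w, L w = ∑ a, x a * w a := by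
      intro w
      simp [hL, LinearMap.sum_apply]
    have h3 : LinearMap.range F ≤ LinearMap.ker L := by
      rintro _ ⟨y, rfl⟩
      rw [LinearMap.mem_ker, hLw]
      exact hrel y
    have h4 : finrank ℝ (LinearMap.range F) = d := by
      rw [LinearMap.finrank_range_of_inj hinj, finrank_euclideanSpace_fin]
    have h5 : finrank ℝ (LinearMap.ker L) = d := by
      have h6 := LinearMap.finrank_range_add_finrank_ker L
      have h7 : LinearMap.range L = ⊤ := by
        rw [LinearMap.range_eq_top]
        intro t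
        refine ⟨Pi.single a0 (t / x a0), ?_⟩
        rw [hLw, Finset.sum_eq_single a0]
        · rw [Pi.single_eq_same, mul_div_cancel₀ _ ha0]
        · intro b _ hb
          rw [Pi.single_eq_of_ne hb, mul_zero]
        · intro h; exact absurd (mem_univ _) h
      rw [h7, finrank_top, Module.finrank_self, Module.finrank_fin_fun] at h6
      omega
    have h6 := Submodule.eq_of_le_of_finrank_eq h3 (h4.trans h5.symm)
    have h7 : w ∈ LinearMap.range F := by
      rw [h6, LinearMap.mem_ker, hLw]; exact hw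
    exact h7
  -- points of `K` in coordinates
  have hKx : ∀ z, ∑ a, x a * (inner ℝ (v a) z - e a) = - ε := by
    intro z
    simp only [mul_sub, Finset.sum_sub_distrib]
    rw [hrel z, ← hε]; ring
  have hKz : ∀ w : Fin (d + 1) → ℝ, (∀ a, |w a| ≤ 1) → ∑ a, x a * w a = - ε →
      ∃ z ∈ K, ∀ a, inner ℝ (v a) z = w a + e a := by
    intro w hw hwx
    obtain ⟨z, hz⟩ := hrange (fun a => w a + e a) (by
      simp only [mul_add, Finset.sum_add_distrib]
      rw [hwx, ← hε]; ring)
    have hz' : ∀ a, inner ℝ (v a) z = w a + e a := fun a => congrFun hz a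
    exact ⟨z, (h1 z).2 fun a => by rw [hz' a, add_sub_cancel_right]; exact hw a, hz'⟩
  -- no small sign vectors
  have hns : ∀ s, |ε| ≤ |C1E.val x s| := by
    refine ns x ε fun w hw hwx => ?_
    obtain ⟨y, hy⟩ := hrange (fun a => 2 * w a) (by
      have : ∀ a, x a * (2 * w a) = 2 * (x a * w a) := fun a => by ring
      simp only [this]
      rw [← Finset.mul_sum, hwx, mul_zero])
    have hy' : ∀ a, inner ℝ (v a) y = 2 * w a := fun a => congrFun hy a
    obtain ⟨p, hp, q, hq, hpq⟩ := h2 y (fun a => by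
      rw [hy' a, abs_mul, abs_two]; linarith [hw a])
    refine ⟨fun a => inner ℝ (v a) p - e a, fun a => inner ℝ (v a) q - e a, (h1 p).1 hp,
      (h1 q).1 hq, hKx p, hKx q, fun a => ?_⟩
    rw [← hy' a, ← hpq, inner_sub_right]; ring
  have hε1 : |ε| < ∑ a, |x a| := by
    have h3 : |ε| = |∑ a, x a * (inner ℝ (v a) z0 - e a)| := by rw [hKx, abs_neg]
    rw [h3]
    refine (Finset.abs_sum_le_sum_abs _ _).trans_lt (Finset.sum_lt_sum (fun a _ => ?_)
      ⟨a0, mem_univ a0, ?_⟩)
    · rw [abs_mul]
      nlinarith [hz0' a, abs_nonneg (x a)]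
    · rw [abs_mul]
      nlinarith [hz0' a0, abs_pos.2 ha0]
  -- the family
  intro n c p hc hm
  set g : Fin n → Fin (d + 1) → ℝ := fun i a => inner ℝ (v a) (p i) + c i * e a with hg
  have hint : ∀ i l a, |g i a - g l a| ≤ c i + c l := by
    intro i l a
    by_cases hil : i = l
    · subst hil
      rw [sub_self, abs_zero]; linarith [hc i]
    · obtain ⟨y, ⟨y1, hy1, e1⟩, ⟨y2, hy2, e2⟩⟩ := hm i l hil
      have e1' : p i + c i • y1 = y := e1
      have e2' : p l + c l • y2 = y := e2
      have a1 := abs_le.1 ((h1 y1).1 hy1 a)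
      have a2 := abs_le.1 ((h1 y2).1 hy2 a)
      have e3 : inner ℝ (v a) (p i) + c i * inner ℝ (v a) y1 = inner ℝ (v a) y := by
        rw [← e1', inner_add_right, real_inner_smul_right]
      have e4 : inner ℝ (v a) (p l) + c l * inner ℝ (v a) y2 = inner ℝ (v a) y := by
        rw [← e2', inner_add_right, real_inner_smul_right]
      have hci := hc i
      have hcl := hc l
      simp only [hg]
      rw [abs_le]
      constructor <;> nlinarith [a1.1, a1.2, a2.1, a2.2]
  obtain ⟨col, hcol⟩ := block_eps c hc g x ⟨a0, ha0⟩ ε (fun i => by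
    simp only [hg, mul_add, Finset.sum_add_distrib]
    rw [hrel (p i), hε, Finset.mul_sum, zero_add]
    exact Finset.sum_congr rfl fun a _ => by ring) hns hint
  -- disjoint interiors are separated by a slab
  have hdis : ∀ i l, c i ≤ c l → interior ((fun y => p i + c i • y) '' K) ∩
      interior ((fun y => p l + c l • y) '' K) = ∅ → ∃ a, c i + c l ≤ |g i a - g l a| := by
    intro i l hil hd
    by_contra hcon
    push Not at hcon
    have hne : (interior ((fun y => p i + c i • y) '' K) ∩
        interior ((fun y => p l + (c i + (c l - c i)) • y) '' K)).Nonempty := by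
      have hDq : ∀ a, g l a - g i a = inner ℝ (v a) (p l - p i) + (c l - c i) * e a := by
        intro a
        simp only [hg, inner_sub_right]; ring
      rcases hil.lt_or_eq with hlt | heq
      · have hD : 0 < c l - c i := by linarith
        obtain ⟨w, hw1, hw2, hw3⟩ := sel x (fun a => g l a - g i a) ε (c i) (c l - c i) hD hns hε1
          (hc i) (by
            simp only [hDq, mul_add, Finset.sum_add_distrib]
            rw [hrel, hε, Finset.mul_sum, zero_add]
            exact Finset.sum_congr rfl fun a _ => by ring) (fun a => by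
            rw [abs_sub_comm]
            linarith [hcon a])
        obtain ⟨z, hz, hz'⟩ := hKz w hw1 hw2
        refine int_meet hK ⟨z0, hz0⟩ (fun a => innerSL ℝ (v a)) (fun y hy => h2 y hy) (hc i) hD.le
          (p i) (p l) z hz fun a => ?_
        show |inner ℝ (v a) (p l - p i) + (c l - c i) * inner ℝ (v a) z| < 2 * c i
        have := hw3 a
        rw [hDq] at this
        rw [hz' a]
        have e3 : inner ℝ (v a) (p l - p i) + (c l - c i) * (w a + e a) =
          inner ℝ (v a) (p l - p i) + (c l - c i) * e a + (c l - c i) * w a := by ring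
        rw [e3]
        exact this
      · refine int_meet hK ⟨z0, hz0⟩ (fun a => innerSL ℝ (v a)) (fun y hy => h2 y hy) (hc i)
          (by rw [heq, sub_self]) (p i) (p l) z0 (interior_subset hz0) fun a => ?_
        show |inner ℝ (v a) (p l - p i) + (c l - c i) * inner ℝ (v a) z0| < 2 * c i
        have := hcon a
        rw [abs_sub_comm, hDq, heq, sub_self, zero_mul, add_zero] at this
        rw [heq, sub_self, zero_mul, add_zero]
        linarith
    have e5 : c i + (c l - c i) = c l := by ring
    rw [e5, hd] at hne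
    exact Set.not_nonempty_empty hne
  refine ⟨col, fun i l hil hd => ?_⟩
  have hex : ∃ a, c i + c l ≤ |g i a - g l a| := by
    rcases le_total (c i) (c l) with h | h
    · exact hdis i l h hd
    · rw [Set.inter_comm] at hd
      obtain ⟨a, ha⟩ := hdis l i h hd
      exact ⟨a, by rw [abs_sub_comm]; linarith⟩
  obtain ⟨a, ha⟩ := hex
  have h3 := hint i l a
  rcases abs_cases (g i a - g l a) with ⟨h4, _⟩ | ⟨h4, _⟩
  · exact hcol i l a (by linarith)
  · exact (hcol l i a (by linarith)).symm

/-- Convex bodies whose difference body is cut out by at most `d + 1` slabs. -/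
theorem colB_db {d : ℕ} (K : Set (EuclideanSpace ℝ (Fin d))) (hK : Convex ℝ K)
    (hKc : IsCompact K) (hKi : (interior K).Nonempty)
    (u : Fin (d + 1) → EuclideanSpace ℝ (Fin d))
    (hu : ∀ y, (∃ p ∈ K, ∃ q ∈ K, p - q = y) ↔ ∀ a, |inner ℝ (u a) y| ≤ 1) :
    C1G.ColB K (2 ^ d) := by
  classical
  have hne : K.Nonempty := hKi.mono interior_subset
  have hmax : ∀ w : EuclideanSpace ℝ (Fin d), ∃ p ∈ K, ∀ z ∈ K, inner ℝ w z ≤ (inner ℝ w p : ℝ) := by
    intro w
    obtain ⟨p, hp, hp'⟩ := hKc.exists_isMaxOn hne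
      (f := fun z => (inner ℝ w z : ℝ)) (by fun_prop)
    exact ⟨p, hp, fun z hz => hp' hz⟩
  choose P hP hPmax using fun a => hmax (u a)
  choose Q hQ hQmax using fun a => hmax (- u a)
  have hQmin : ∀ a, ∀ z ∈ K, (inner ℝ (u a) (Q a) : ℝ) ≤ inner ℝ (u a) z := by
    intro a z hz
    have := hQmax a z hz
    rw [inner_neg_left, inner_neg_left] at this
    linarith
  set w : Fin (d + 1) → ℝ := fun a => inner ℝ (u a) (P a) - inner ℝ (u a) (Q a) with hw
  have hw0 : ∀ a, 0 ≤ w a := fun a => by
    have := hQmin a (P a) (hP a)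
    simp only [hw]; linarith
  have hw1 : ∀ a, w a ≤ 1 := fun a => by
    have := (hu (P a - Q a)).1 ⟨P a, hP a, Q a, hQ a, rfl⟩ a
    rw [inner_sub_right] at this
    exact (abs_le.1 this).2
  -- vanishing width
  have hwz : ∀ a, w a = 0 → u a = 0 := by
    intro a ha
    obtain ⟨z0, hz0⟩ := hKi
    obtain ⟨r, hr, hball⟩ := Metric.mem_nhds_iff.1 (mem_interior_iff_mem_nhds.1 hz0)
    by_contra hva
    have hn : 0 < ‖u a‖ := norm_pos_iff.2 hva
    set t : ℝ := r / (2 * ‖u a‖) with ht
    have ht0 : 0 < t := by positivity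
    have hmem : z0 + t • u a ∈ K := by
      refine hball ?_
      rw [Metric.mem_ball, dist_eq_norm, add_sub_cancel_left, norm_smul, Real.norm_eq_abs,
        abs_of_pos ht0, ht]
      have : r / (2 * ‖u a‖) * ‖u a‖ = r / 2 := by field_simp
      rw [this]; linarith
    have h1 := hPmax a _ hmem
    have h2 := hQmin a _ (interior_subset hz0)
    rw [inner_add_right, real_inner_smul_right, real_inner_self_eq_norm_mul_norm] at h1
    have hpos : 0 < t * (‖u a‖ * ‖u a‖) := by positivity
    simp only [hw] at ha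
    linarith
  set v : Fin (d + 1) → EuclideanSpace ℝ (Fin d) := fun a => (2 / w a) • u a with hv
  set e : Fin (d + 1) → ℝ := fun a =>
    (inner ℝ (v a) (P a) + inner ℝ (v a) (Q a)) / 2 with he
  have hva : ∀ a y, inner ℝ (v a) y = 2 / w a * inner ℝ (u a) y := fun a y => by
    simp only [hv]
    rw [real_inner_smul_left]
  have h2 : ∀ y, (∀ a, |inner ℝ (v a) y| ≤ 2) → ∃ p ∈ K, ∃ q ∈ K, p - q = y := by
    intro y hy
    rw [hu]
    intro a
    by_cases hwa : w a = 0
    · rw [hwz a hwa, inner_zero_left]; norm_num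
    · have hpos : 0 < w a := lt_of_le_of_ne (hw0 a) (Ne.symm hwa)
      have h3 := hy a
      rw [hva, abs_mul, abs_of_pos (by positivity), div_mul_eq_mul_div, div_le_iff₀ hpos] at h3
      linarith [hw1 a]
  have h1' : ∀ z ∈ K, ∀ a, |inner ℝ (v a) z - e a| ≤ 1 := by
    intro z hz a
    by_cases hwa : w a = 0
    · have : v a = 0 := by simp only [hv]; rw [hwz a hwa, smul_zero]
      simp only [he, this, inner_zero_left]
      norm_num
    · have hpos : 0 < w a := lt_of_le_of_ne (hw0 a) (Ne.symm hwa)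
      have h3 := hPmax a z hz
      have h4 := hQmin a z hz
      have e1 : inner ℝ (v a) z - e a =
          (2 * inner ℝ (u a) z - inner ℝ (u a) (P a) - inner ℝ (u a) (Q a)) / w a := by
        simp only [he, hva]
        field_simp
        ring
      rw [e1, abs_div, abs_of_pos hpos, div_le_one hpos, abs_le]
      simp only [hw]
      constructor <;> linarith
  refine colB_norm hK hKc hKi v e (fun a ha => by simp [he, ha]) (fun z => ⟨fun hz => h1' z hz,
    fun hz => ?_⟩) h2
  by_contra hzK
  obtain ⟨φ, t, ht1, ht2⟩ := geometric_hahn_banach_closed_point hK hKc.isClosed hzK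
  obtain ⟨r, hr, hrmin⟩ := hKc.exists_isMinOn hne (f := fun y => φ y) (by fun_prop)
  obtain ⟨p, hp, q, hq, hpq⟩ := h2 (z - r) (fun a => by
    have a1 := abs_le.1 (hz a)
    have a2 := abs_le.1 (h1' r hr a)
    rw [inner_sub_right, abs_le]
    constructor <;> linarith [a1.1, a1.2, a2.1, a2.2])
  have h3 : φ p - φ q = φ z - φ r := by rw [← map_sub, ← map_sub, hpq]
  have h4 : φ r ≤ φ q := hrmin hq
  linarith [ht1 p hp]

end C1N
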